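import Pool.Agent.Helper28_TP.StS

/-! Module INIT: start of the exploration. -/

set_option autoImplicit false

namespace Pool.Agent.TP.H46

open Pool.Agent.Helper33_FPP (Z2 dst Rect)

variable {k : ℕ}

/-! ### The box of radius `m` is connected by unit steps -/

theorem unit_mem {N : Finset (Pt k)} {ρ : ℕ} (hN : GoodN N ρ) (i : Fin (k + 2)) (g : ℤ)
    (hg : g = 1 ∨ g = -1) : (Pi.single i g : Pt k) ∈ N := by
  have h1 : (Pi.single i 1 : Pt k) ∈ N := by
    have h := hN.perm _ hN.unit (Equiv.swap 0 i)
    have e : (fun j => (Pi.single 0 (1 : ℤ) : Pt k) ((Equiv.swap 0 i) j)) = Pi.single i 1 := by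
      funext j
      by_cases hj : j = i
      · subst hj; simp
      · have h2 : (Equiv.swap 0 i) j ≠ 0 := by
          intro h
          apply hj
          have := congrArg (Equiv.swap 0 i) h
          simpa using this
        rw [Pi.single_eq_of_ne h2, Pi.single_eq_of_ne hj]
    rwa [e] at h
  rcases hg with rfl | rfl
  · exact h1
  · have h := hN.neg _ h1 i
    have e : Function.update (Pi.single i (1 : ℤ) : Pt k) i (-((Pi.single i (1 : ℤ) : Pt k) i))
        = Pi.single i (-1) := by
      funext j
      by_cases hj : j = i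
      · subst hj; simp
      · rw [Function.update_of_ne hj, Pi.single_eq_of_ne hj, Pi.single_eq_of_ne hj]
    rwa [e] at h

theorem conn_bx {N : Finset (Pt k)} {ρ : ℕ} (hN : GoodN N ρ) (b : Pt k) (m : ℕ) :
    ∀ (s : ℕ) (x y : Pt k), x ∈ bx b m → y ∈ bx b m → ∑ i, |y i - x i| = s →
      Conn N ↑(bx b m) x y := by
  intro s
  induction s with
  | zero =>
    intro x y _ _ h
    have h1 : ∀ i, |y i - x i| = 0 := by
      have := (Finset.sum_eq_zero_iff_of_nonneg (fun i _ => abs_nonneg (y i - x i))).1 h
      exact fun i => this i (Finset.mem_univ i)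
    have : x = y := by
      funext i
      have := h1 i
      rw [abs_eq_zero] at this
      linarith
    rw [this]
    exact Relation.ReflTransGen.refl
  | succ s ih =>
    intro x y hx hy h
    have h1 : ∃ i, y i ≠ x i := by
      by_contra hc
      push Not at hc
      have : ∑ i, |y i - x i| = 0 := Finset.sum_eq_zero fun i _ => by rw [hc i]; simp
      rw [this] at h
      push_cast at h
      omega
    obtain ⟨i, hi⟩ := h1
    rw [mem_bx] at hx hy
    -- move `x` one step towards `y` in the direction `i`
    obtain ⟨g, hg, hg2⟩ : ∃ g : ℤ, (g = 1 ∨ g = -1) ∧ |y i - (x i + g)| = |y i - x i| - 1 := by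
      rcases lt_or_gt_of_ne hi with h2 | h2
      · refine ⟨-1, Or.inr rfl, ?_⟩
        rw [abs_of_nonpos (by linarith), abs_of_nonpos (by linarith)]
        ring
      · refine ⟨1, Or.inl rfl, ?_⟩
        rw [abs_of_nonneg (by linarith), abs_of_nonneg (by linarith)]
        ring
    have hz : Function.update x i (x i + g) ∈ bx b m := by
      rw [mem_bx]
      intro j
      by_cases hj : j = i
      · subst hj
        rw [Function.update_self]
        have h3 := hx j
        have h4 := hy j
        rw [abs_le] at h3 h4 ⊢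
        rcases hg with rfl | rfl
        · have : x j < y j := by
            by_contra hc
            push Not at hc
            rw [abs_of_nonpos (by linarith), abs_of_nonpos (by linarith)] at hg2
            linarith
          constructor <;> linarith
        · have : y j < x j := by
            by_contra hc
            push Not at hc
            rw [abs_of_nonneg (by linarith), abs_of_nonneg (by linarith)] at hg2
            linarith
          constructor <;> linarith
      · rw [Function.update_of_ne hj]
        exact hx j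
    have hstep : Function.update x i (x i + g) - x = Pi.single i g := by
      funext j
      by_cases hj : j = i
      · subst hj; simp
      · simp [hj]
    have hsum : ∑ j, |y j - Function.update x i (x i + g) j| = s := by
      have e : ∑ j, |y j - Function.update x i (x i + g) j| = ∑ j, |y j - x j| - 1 := by
        rw [← Finset.add_sum_erase _ _ (Finset.mem_univ i),
          ← Finset.add_sum_erase (a := i) _ (fun j => |y j - x j|) (Finset.mem_univ i)]
        rw [Function.update_self, hg2]
        have : ∑ j ∈ Finset.univ.erase i, |y j - Function.update x i (x i + g) j|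
            = ∑ j ∈ Finset.univ.erase i, |y j - x j| := by
          refine Finset.sum_congr rfl fun j hj => ?_
          rw [Function.update_of_ne (Finset.ne_of_mem_erase hj)]
        rw [this]
        ring
      rw [e, h]
      push_cast
      ring
    have h5 := ih (Function.update x i (x i + g)) y hz (mem_bx.2 hy) hsum
    refine Relation.ReflTransGen.head ⟨?_, ?_⟩ h5
    · rw [hstep]; exact unit_mem hN i g hg
    · exact Finset.mem_coe.2 hz

theorem conn_box {N : Finset (Pt k)} {ρ : ℕ} (hN : GoodN N ρ) (b : Pt k) (m : ℕ) {x y : Pt k}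
    (hx : x ∈ bx b m) (hy : y ∈ bx b m) : Conn N ↑(bx b m) x y := by
  have h0 : 0 ≤ ∑ i, |y i - x i| := Finset.sum_nonneg fun i _ => abs_nonneg _
  exact conn_bx hN b m (∑ i, |y i - x i|).toNat x y hx hy (Int.toNat_of_nonneg h0).symm

theorem card_bx (b : Pt k) (m : ℕ) : (bx b m).card = (2 * m + 1) ^ (k + 2) := by
  unfold bx
  rw [Pi.card_Icc]
  have : ∀ i : Fin (k + 2), (Finset.Icc (b i - m) (b i + m)).card = 2 * m + 1 := by
    intro i
    rw [Int.card_Icc]
    have : b i + m + 1 - (b i - m) = ((2 * m + 1 : ℕ) : ℤ) := by push_cast; ring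
    rw [this, Int.toNat_natCast]
  rw [Finset.prod_congr rfl fun i _ => this i, Finset.prod_const, Finset.card_univ,
    Fintype.card_fin]

/-! ### Probability that a given set is contained in the random set -/

theorem PS_subset {α : Type} [DecidableEq α] {V D : Finset α} (hD : D ⊆ V) (q : α → ℝ) :
    PS V q (fun A => D ⊆ A) = ∏ a ∈ D, q a := by
  rw [PS_marg hD q (E := fun A => D ⊆ A) (fun A _ => ?_)]
  · rw [PS_def]
    unfold EX
    rw [Finset.sum_eq_single D]
    · beta_reduce
      rw [if_pos (Finset.Subset.refl D), mul_one]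
      unfold wt
      refine Finset.prod_congr rfl fun a ha => ?_
      rw [if_pos ha]
    · intro A hA hne
      beta_reduce
      rw [if_neg, mul_zero]
      intro h
      exact hne (Finset.Subset.antisymm (Finset.mem_powerset.1 hA) h)
    · intro h
      exact absurd (Finset.mem_powerset.2 (Finset.Subset.refl D)) h
  · constructor
    · intro h; exact Finset.subset_inter h (Finset.Subset.refl D)
    · intro h; exact h.trans Finset.inter_subset_left

theorem EX_two {α : Type} [DecidableEq α] {V : Finset α} {q : α → ℝ} (h : U01 V q)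
    (E : Finset α → Prop) (f : Finset α → ℝ) {b₁ b₂ : ℝ}
    (h1 : ∀ A ⊆ V, (∀ a ∈ V, q a = 1 → a ∈ A) → (∀ a ∈ V, q a = 0 → a ∉ A) → E A → f A ≤ b₁)
    (h2 : ∀ A ⊆ V, (∀ a ∈ V, q a = 1 → a ∈ A) → (∀ a ∈ V, q a = 0 → a ∉ A) → ¬ E A → f A ≤ b₂) :
    EX V q f ≤ PS V q E * b₁ + (1 - PS V q E) * b₂ := by
  classical
  have e : EX V q (fun A => (b₁ - b₂) * (if E A then 1 else 0) + b₂)
      = PS V q E * b₁ + (1 - PS V q E) * b₂ := by
    rw [EX_add V q (fun A => (b₁ - b₂) * (if E A then 1 else 0)) (fun _ => b₂),
      EX_mul V q (b₁ - b₂) (fun A => if E A then 1 else 0), EX_const, PS_def]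
    ring
  rw [← e]
  refine EX_mono' h fun A hA hA1 hA0 => ?_
  by_cases hE : E A
  · rw [if_pos hE]
    linarith [h1 A hA hA1 hA0 hE]
  · rw [if_neg hE]
    linarith [h2 A hA hA1 hA0 hE]

/-- INIT -/
theorem init (hTow : TowStmt) (hSucc : SuccStmt) (hPlz : PlzStmt) : InitStmt := by
  intro k N ρ p ε m n δ hN hmn hp0 hp1 hε0 hε1 hδ0 hδ1 hStep Reg Λ o q hVol ho hReg hRst Φ βS βF
    hβS hβ hS hF
  classical
  set M := Ms m n with hM
  have hMdef : M = n + m + 1 := rfl
  have hm0 : (0 : ℤ) ≤ m := Int.natCast_nonneg m
  have hn4 : (4 : ℤ) * m + 4 ≤ n := by exact_mod_cast hmn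
  set X := 10 * M * o.1 - 20 * M with hX
  -- the inclusion probabilities, fresh outside the volume
  set q1 : Pt k × ℕ → ℝ := fun x => if x ∈ Λ ×ˢ Finset.range (KK + 1) then q x else q0 p ε x
    with hq1
  have hq1f : ∀ v j, X ≤ v 0 → q1 (v, j) = q0 p ε (v, j) := by
    intro v j hv
    simp only [hq1]
    split_ifs
    · exact hRst.1 v j hv
    · rfl
  have hq1v : ∀ v j, q1 (v, j) = 0 ∨ q1 (v, j) = 1 ∨ q1 (v, j) = q0 p ε (v, j) := by
    intro v j
    simp only [hq1]
    split_ifs
    · exact hRst.2 v j
    · exact Or.inr (Or.inr rfl)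
  have hq1Λ : ∀ v j, v ∉ Λ → q1 (v, j) = q0 p ε (v, j) := by
    intro v j hv
    simp only [hq1]
    rw [if_neg]
    intro h
    exact hv (Finset.mem_product.1 h).1
  have hV : PS (Λ ×ˢ Finset.range (KK + 1)) q Φ = PS (Λ ×ˢ Finset.range (KK + 1)) q1 Φ := by
    refine PS_congr (fun a ha => ?_) fun _ _ => Iff.rfl
    simp only [hq1]
    rw [if_pos ha]
  have hU : U01 (Λ ×ˢ Finset.range (KK + 1)) q1 := by
    rintro ⟨v, j⟩ _
    have h1 : 0 ≤ q0 p ε (v, j) ∧ q0 p ε (v, j) ≤ 1 := by
      unfold q0
      split_ifs
      · exact ⟨hp0.le, hp1.le⟩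
      · exact ⟨hε0.le, hε1.le⟩
    rcases hq1v v j with h | h | h
    · rw [h]; norm_num
    · rw [h]; norm_num
    · rw [h]; exact h1
  -- the base state
  set s0 : St k := ⟨q1, ∅, Λ.filter (fun v => v 0 < X)⟩ with hs0
  have hs0R : s0.R = ∅ := rfl
  have hs0E : ∀ v, v ∈ s0.E ↔ v ∈ Λ ∧ v 0 < X := by
    intro v
    rw [hs0]
    simp
  have hmem0 : ∀ x, x ∈ s0.R ∪ s0.E → x 0 < X := by
    intro x hx
    rw [hs0R, Finset.empty_union, hs0E] at hx
    exact hx.2
  have hcen0 : ∀ z : ℤ × ℤ, cen k (10 * M) z 0 = 10 * M * z.1 := by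
    intro z
    simp [cen]
  have hcen1 : ∀ z : ℤ × ℤ, cen k (10 * M) z 1 = 10 * M * z.2 := by
    intro z
    simp [cen]
  have hcen2 : ∀ (z : ℤ × ℤ) (i : Fin (k + 2)), i ≠ 0 → i ≠ 1 → cen k (10 * M) z i = 0 := by
    intro z i h0 h1
    simp [cen, h0, h1]
  have hMpos : 0 < M := by rw [hMdef]; linarith
  have hXle : ∀ z ∈ Reg, X + 20 * M ≤ 10 * M * z.1 := by
    intro z hz
    have h1 := hReg z hz
    have : 10 * M * o.1 ≤ 10 * M * z.1 := mul_le_mul_of_nonneg_left h1 (by linarith)
    rw [hX]
    linarith
  have hvalid : Valid N p ε m n Reg ∅ ∅ X s0 := by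
    refine
      { ok := ⟨?_, ?_, ?_⟩
        rc := ?_
        hit := ?_
        z4 := ?_
        lays := ?_
        mid := ?_
        tube := ?_
        loc := ?_
        inV := ?_
        xr := ?_
        adj := ?_ }
    · intro v _ hvE j
      by_cases hv : v ∈ Λ
      · have : X ≤ v 0 := by
          by_contra hc
          push Not at hc
          exact hvE ((hs0E v).2 ⟨hv, hc⟩)
        exact hq1f v j this
      · exact hq1Λ v j hv
    · intro v hv
      rw [hs0R] at hv
      exact absurd hv (Finset.notMem_empty v)
    · intro v j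
      exact hq1v v j
    · intro x hx
      rw [hs0R] at hx
      exact absurd hx (Finset.notMem_empty x)
    · intro z hz
      exact absurd hz (Finset.notMem_empty z)
    · intro z hz _ _ x hx hnear
      have h1 := hmem0 x hx
      have h2 := hnear.1
      rw [← hM, hcen0, abs_le] at h2
      have h3 := hXle z hz
      linarith [h2.1]
    · intro z hz _ _ v hnear i _
      have h2 := hnear.1
      rw [← hM, hcen0, abs_le] at h2
      have h3 := hXle z hz
      have h4 : X ≤ v 0 := by linarith [h2.1]
      change q1 (v, lyr z i) = ε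
      rw [hq1f v _ h4]
      unfold q0
      rw [if_neg]
      unfold lyr
      omega
    · intro z hz _ _ a g hg hz' _ _ x hx h
      have h1 := hmem0 x hx
      have h3 := hXle z hz
      obtain ⟨h4, h5, h6⟩ := h
      rw [← hM] at h4 h5 h6
      cases a
      · have e : pc (10 * M) z false g x = g * (x 0 - 10 * M * z.1) := by
          unfold pc axi
          simp [hcen0]
        rw [e] at h4 h5
        rcases hg with rfl | rfl
        · linarith
        · linarith
      · have e : lc (10 * M) z true x = x 0 - 10 * M * z.1 := by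
          unfold lc axi
          simp [hcen0]
        rw [e, abs_le] at h6
        linarith [h6.1]
    · intro z hz
      exact absurd hz (Finset.notMem_empty z)
    · intro v j h
      left
      by_contra hc
      push Not at hc
      exact h (hq1f v j hc)
    · intro x hx
      rw [hs0R] at hx
      exact absurd hx (Finset.notMem_empty x)
    · intro z hz
      rw [← hM]
      exact hXle z hz
    · intro v hv
      exact Or.inl ((hs0E v).1 hv).2
  -- the starting box
  set b : Pt k := cen k (10 * M) o with hb
  set B := bx b m with hB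
  have hBmem : ∀ v ∈ B, |v 0 - 10 * M * o.1| ≤ m ∧ |v 1 - 10 * M * o.2| ≤ m ∧
      ∀ i, i ≠ 0 → i ≠ 1 → |v i| ≤ m := by
    intro v hv
    rw [hB, mem_bx] at hv
    refine ⟨?_, ?_, ?_⟩
    · have := hv 0
      rwa [hb, hcen0] at this
    · have := hv 1
      rwa [hb, hcen1] at this
    · intro i h0 h1
      have := hv i
      rwa [hb, hcen2 o i h0 h1, sub_zero] at this
  have hBΛ : B ⊆ Λ := by
    intro v hv
    obtain ⟨h0, h1, h2⟩ := hBmem v hv
    refine hVol o ho v ⟨?_, ?_⟩ ?_
    · rw [← hM, hcen0]
      exact h0.trans (by linarith)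
    · rw [← hM, hcen1]
      exact h1.trans (by linarith)
    · intro i hi hi'
      rw [← hM]
      exact (h2 i hi hi').trans (by linarith)
  have hBX : ∀ v ∈ B, X ≤ v 0 := by
    intro v hv
    have h0 := (hBmem v hv).1
    rw [abs_le] at h0
    rw [hX]
    linarith [h0.1]
  set D : Finset (Pt k × ℕ) := B ×ˢ {0} with hD
  have hDV : D ⊆ Λ ×ˢ Finset.range (KK + 1) := by
    rintro ⟨v, j⟩ h
    rw [hD, Finset.mem_product, Finset.mem_singleton] at h
    rw [Finset.mem_product, Finset.mem_range]
    refine ⟨hBΛ h.1, ?_⟩
    have : j = 0 := h.2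
    show j < KK + 1
    rw [this]
    unfold KK
    norm_num
  have hprod : ∏ a ∈ D, q1 a = p ^ ((2 * m + 1) ^ (k + 2)) := by
    rw [hD, Finset.prod_product]
    have : ∀ v ∈ B, ∏ j ∈ ({0} : Finset ℕ), q1 (v, j) = p := by
      intro v hv
      rw [Finset.prod_singleton, hq1f v 0 (hBX v hv)]
      simp [q0]
    rw [Finset.prod_congr rfl this, Finset.prod_const, hB, card_bx]
  rw [hV, hTow (Pt k × ℕ) (Λ ×ˢ Finset.range (KK + 1)) q1 (fun _ => D) (fun _ _ => hDV)
    (fun _ _ _ _ _ => rfl) Φ]
  have hPS : PS (Λ ×ˢ Finset.range (KK + 1)) q1 (fun A => D ⊆ A)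
      = p ^ ((2 * m + 1) ^ (k + 2)) := by
    rw [PS_subset hDV, hprod]
  rw [← hPS]
  refine EX_two hU (fun A => D ⊆ A) _ ?_ ?_
  · -- all sites of the starting box are open
    intro A hAV _ _ hA
    set qA : Pt k × ℕ → ℝ := fun x => if x ∈ D then (if x ∈ A then 1 else 0) else q1 x with hqA
    have hqAne : ∀ v j, qA (v, j) ≠ q1 (v, j) → v ∈ B ∧ j = 0 := by
      intro v j h
      by_contra hc
      apply h
      simp only [hqA]
      rw [if_neg]
      intro h2
      rw [hD, Finset.mem_product, Finset.mem_singleton] at h2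
      exact hc h2
    have hqA1 : ∀ v ∈ B, qA (v, 0) = 1 := by
      intro v hv
      have h2 : (v, 0) ∈ D := by
        rw [hD, Finset.mem_product, Finset.mem_singleton]
        exact ⟨hv, rfl⟩
      simp only [hqA]
      rw [if_pos h2, if_pos (hA h2)]
    set s1 : St k := ⟨qA, B, s0.E⟩ with hs1
    set z : ℤ × ℤ := (o.1 - 1, o.2) with hz
    have hnbr : nbr z false 1 = o := by
      simp [nbr, hz]
    have hzReg : z ∉ Reg := by
      intro h
      have := hReg z h
      rw [hz] at this
      simp only at this
      omega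
    have hpc : ∀ x : Pt k, pc (10 * M) z false 1 x = (x 0 - 10 * M * o.1) + 10 * M := by
      intro x
      unfold pc axi
      simp only [Bool.false_eq_true, if_false, hcen0, hz]
      ring
    have hlc : ∀ x : Pt k, lc (10 * M) z false x = x 1 - 10 * M * o.2 := by
      intro x
      unfold lc axi
      simp [hcen1, hz]
    have hEdg : ∀ v ∈ B, Edg M n z false 1 v := by
      intro v hv
      obtain ⟨h0, h1, h2⟩ := hBmem v hv
      rw [abs_le] at h0
      refine ⟨?_, ?_, ?_, ?_, ?_⟩
      · rw [hpc]; linarith [h0.1]
      · rw [hpc]; linarith [h0.2]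
      · rw [hlc]; exact h1.trans (by linarith)
      · rw [hpc]; intro h; exfalso; linarith [h0.1]
      · intro i hi hi'
        exact (h2 i hi hi').trans (by linarith)
    have hok1 : OKs p ε KK s1 := by
      refine ⟨?_, ?_, ?_⟩
      · intro v hvR hvE j
        have h1 : qA (v, j) = q1 (v, j) := by
          by_contra hc
          exact hvR (hqAne v j hc).1
        change qA (v, j) = _
        rw [h1]
        exact hvalid.ok.free v (by rw [hs0R]; exact Finset.notMem_empty v) hvE j
      · intro v hv
        exact ⟨0, Nat.zero_le _, hqA1 v hv⟩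
      · intro v j
        change qA (v, j) = 0 ∨ qA (v, j) = 1 ∨ qA (v, j) = _
        by_cases hc : qA (v, j) = q1 (v, j)
        · rw [hc]
          exact hq1v v j
        · obtain ⟨h1, h2⟩ := hqAne v j hc
          rw [h2, hqA1 v h1]
          exact Or.inr (Or.inl rfl)
    have hpost : Post N p ε m n z false 1 10 s0 s1 := by
      refine
        { ok := hok1
          rc := fun x hx y hy => conn_box hN b m hx hy
          sub := by rw [hs0R]; exact Finset.empty_subset _
          cov := ?_
          covR := ?_
          keep := ?_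
          adj := fun v hv => Or.inl hv }
      · intro x hx
        rw [Finset.mem_union] at hx
        rcases hx with hx | hx
        · exact Or.inr (hEdg x hx)
        · exact Or.inl (Finset.mem_union_right _ hx)
      · intro x hx
        exact Or.inr (hEdg x hx)
      · intro v j h
        obtain ⟨h1, h2⟩ := hqAne v j h
        exact ⟨hEdg v h1, Or.inl h2⟩
    have harr : Arr N p ε m n z false 1 s0 s1 b := by
      have hpb : pc (10 * M) z false 1 b = 10 * M := by
        rw [hpc, hb, hcen0]; ring
      have hlb : lc (10 * M) z false b = 0 := by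
        rw [hlc, hb, hcen1]; ring
      refine
        { post := hpost
          seed := Finset.Subset.refl _
          p1 := ?_
          p1' := ?_
          p2 := ?_
          p3 := ?_
          tier := ?_ }
      · rw [← hM, hpb]; linarith
      · rw [← hM, hpb]
      · rw [← hM, hlb, abs_zero]; linarith
      · intro i hi hi'
        rw [hb, hcen2 o i hi hi', abs_zero]
        exact Int.natCast_nonneg n
      · intro x hx hnear
        rw [Finset.mem_union] at hx
        rcases hx with hx | hx
        · obtain ⟨h0, h1, h2⟩ := hBmem x hx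
          rw [← hM, hpb, hlb, hpc, hlc]
          rw [abs_le] at h0
          refine ⟨Or.inr (Or.inr ⟨by linarith [h0.2], ?_⟩), h1.trans (by linarith)⟩
          rw [sub_zero]
          exact h1.trans (by linarith)
        · exfalso
          have h1 := ((hs0E x).1 hx).2
          have h2 := hnear.1
          rw [← hM, hnbr, hcen0, abs_le] at h2
          rw [hX] at h1
          linarith [h2.1]
    have hmain := hPlz k N ρ p ε m n δ hN hmn hδ0 hδ1 hStep Reg ∅ ∅ X Λ s0 s1 b z false 1 hVol
      hvalid (Or.inr hzReg) (Or.inl rfl) (by rw [hnbr]; exact ho)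
      (Finset.notMem_empty _) (Finset.notMem_empty _) harr Φ βS βF hβS hβ ?_ ?_
    · exact hmain
    · intro s'' h1 h2 h3
      have h4 := hSucc k N ρ p ε m n hN hmn Reg ∅ ∅ X s0 s'' z false 1 hvalid (Or.inr hzReg)
        (Or.inl rfl) (by rw [hnbr]; exact ho) (Finset.notMem_empty _) (Finset.notMem_empty _)
        h1 h2 h3
      rw [hnbr] at h4
      exact hS s'' h4
    · intro s'' h1
      refine hF s''.q ⟨?_, ?_⟩
      · intro v j hv
        have h2 : s''.q (v, j) = s0.q (v, j) := by
          by_contra hc
          have h3 := (h1.keep v j hc).1.2.1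
          rw [← hM, hpc] at h3
          linarith
        rw [h2]
        exact hq1f v j (by rw [hX]; linarith)
      · exact h1.ok.val
  · -- some site of the starting box is closed
    intro A hAV _ _ _
    refine hF _ ⟨?_, ?_⟩
    · intro v j hv
      beta_reduce
      rw [if_neg]
      · exact hq1f v j (by rw [hX]; linarith)
      · intro h
        rw [hD, Finset.mem_product] at h
        have h0 := (hBmem v h.1).1
        rw [abs_le] at h0
        linarith [h0.2]
    · intro v j
      beta_reduce
      split_ifs
      · exact Or.inr (Or.inl rfl)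
      · exact Or.inl rfl
      · exact hq1v v j

end Pool.Agent.TP.H46
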